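import Pool.Agent.R578.SNR.Main

/-! # Induced 6-cycle-free subgraphs of strongly neighborhood-regular graphs

The assertion of Q1 is proved for every `d ≤ 3` without further assumptions, and for every `d` for
the graphs whose number `r` of classes is at least `(4 d + 4) log₂ log₂ Δ(G)`, and more generally
for the graphs with few hexagons in some `d` classes. -/

set_option autoImplicit false

namespace Pool.Agent.Results.MP_59be9f_co.SmallDOrManyClasses

/-- For every `d` there is `N` such that every finite strongly neighborhood-regular graph `G`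
(bipartition `A`, `V \ A`; the class of `b ∉ A` is `f b`) with minimum degree at least `N` and
without 4-cycles has an induced subgraph (on a nonempty vertex set `S`) of minimum degree greater
than `d` without 6-cycles, provided that one of the following holds:

* `d ≤ 3`;
* all degrees of `G` are at most `2 ^ (2 ^ (r / (4 d + 4)))`;
* there are a class `s` and a set `I` of `d` other classes, such that the degree of the class `s`
  is at most the degree of every class in `I`, and the number of triples `t` of distinct vertices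
  of `A` which are pairwise joined through three distinct vertices of classes in `I` (these are the
  hexagons of `G` with classes in `I`, each counted six times) is at most
  `m ^ 2 * |A| / (512 (d + 1) ^ 7)`, where `m` is the least degree of a class in `I`. -/
theorem result : ∀ d : ℕ, ∃ N : ℕ, ∀ (V : Type) [Fintype V] [DecidableEq V] [Nonempty V]
    (G : SimpleGraph V) [DecidableRel G.Adj] (A : Finset V) (r : ℕ) (f : V → Fin r),
    (∀ u v : V, G.Adj u v → (u ∈ A ↔ v ∉ A)) →
    (∀ a ∈ A, ∀ i : Fin r, ∃! b : V, b ∉ A ∧ f b = i ∧ G.Adj a b) →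
    (∀ b c : V, b ∉ A → c ∉ A → f b = f c → G.degree b = G.degree c) →
    (∀ v : V, N ≤ G.degree v) →
    (∀ (v : V) (p : G.Walk v v), p.IsCycle → p.length ≠ 4) →
    (d ≤ 3 ∨ (∀ v : V, G.degree v ≤ 2 ^ (2 ^ (r / (4 * d + 4)))) ∨
      ∃ (s : Fin r) (I : Finset (Fin r)), s ∉ I ∧ I.card = d ∧
        (∀ b c : V, b ∉ A → c ∉ A → f b = s → f c ∈ I → G.degree b ≤ G.degree c) ∧
        ∀ c : V, c ∉ A → f c ∈ I →
          512 * (d + 1) ^ 7 *
            Set.ncard {t : V × V × V | t.1 ∈ A ∧ t.2.1 ∈ A ∧ t.2.2 ∈ A ∧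
              t.1 ≠ t.2.1 ∧ t.1 ≠ t.2.2 ∧ t.2.1 ≠ t.2.2 ∧
              ∃ b₁ b₂ b₃ : V, f b₁ ∈ I ∧ f b₂ ∈ I ∧ f b₃ ∈ I ∧ b₁ ≠ b₂ ∧ b₁ ≠ b₃ ∧ b₂ ≠ b₃ ∧
                G.Adj t.1 b₁ ∧ G.Adj t.2.1 b₁ ∧ G.Adj t.2.1 b₂ ∧ G.Adj t.2.2 b₂ ∧
                G.Adj t.2.2 b₃ ∧ G.Adj t.1 b₃} ≤ G.degree c ^ 2 * A.card) →
    ∃ S : Finset V, S.Nonempty ∧
      (∀ v ∈ S, d < (S.filter (fun w => G.Adj v w)).card) ∧
      ∀ (v : V) (p : G.Walk v v), p.IsCycle → (∀ w ∈ p.support, w ∈ S) → p.length ≠ 6 := by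
  intro d
  refine ⟨2 * (512 * (d + 2) ^ 7) ^ 2 + 4 * (d + 2) + 1, ?_⟩
  intro V _ _ _ G _ A r f h1 h2 h3 h4 h5 h6
  rcases Nat.eq_zero_or_pos d with hd | hd
  · subst hd
    obtain ⟨S, hS1, hS2, hS3⟩ := Pool.Agent.R578.SNR.main 1 le_rfl V G A r f h1 h2 h3
      (fun v => le_trans (by norm_num) (h4 v)) h5 (Or.inl (by norm_num))
    exact ⟨S, hS1, fun v hv => lt_trans Nat.zero_lt_one (hS2 v hv), hS3⟩
  · refine Pool.Agent.R578.SNR.main d hd V G A r f h1 h2 h3 (fun v => le_trans ?_ (h4 v)) h5 h6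
    gcongr <;> omega

end Pool.Agent.Results.MP_59be9f_co.SmallDOrManyClasses
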